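import Pool.Agent.V11288.LZ.Par

/-!
# Nonvanishing of the central values of the Gan–Gross–Prasad conjecture in terms of Satake parameters

Let `F` be a number field, `π` a tempered cuspidal representation of `G(𝔸)` as in the problem, `S` a finite set of
places containing the infinite ones, outside which everything is unramified, and let `c_{v,j}`, `j ≤ N`, be the
eigenvalues of the Frobenius at `v ∉ S` in the symplectic representation `R` of the `L`-group (composed with the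
Satake parameter of `π_v`).  They have absolute value `1` (`π` is tempered) and, `R` being symplectic, their power sums
`p_v(k) = ∑_j c_{v,j}^k` are real.  Let

`L(s) = ∏_{v ∉ S} ∏_j (1 - c_{v,j} q_v^{-s})⁻¹`  (`Re s > 1`),

meromorphic at the points of the real interval `[1/2, 1]` and holomorphic at `1/2`.  The local factors at `v ∈ S` are
finite and different from zero at `1/2` since `π` is tempered, so `L(π, R, 1/2) ≠ 0` means `L(1/2) ≠ 0`.

For `γ > π/2` and `X > 1` let, with `t = k log q_v / log X`,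

`V(X) = ∑_{v ∉ S} ∑_{k ≥ 1} p_v(k) q_v^{-k/2} / k · cos(γt) / Γ(1 + t)`.

The series converges absolutely, and without any hypothesis on the zeros of `L` in the critical strip:

1. `V(X) = -r log log X + b + O(1/log X)`, `r ≥ 0` the order of `L` at `s = 1/2`, `b` a real constant;

2. (dichotomy) `L(1/2) ≠ 0` if and only if `V(X)` is bounded from below for large `X`, and `L(1/2) = 0` if and only if
   `V(X) ≤ -log log X + C` for large `X`, for some `C`;

3. so each of the equivalences of Q1 for `π` (a period is nonzero if and only if local conditions hold and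
   `L(1/2) ≠ 0`) is equivalent to the same statement with the condition `L(1/2) ≠ 0` replaced by the condition that
   `V(X)` is bounded from below for large `X`, an explicit condition on the Satake parameters of `π`.

Proof.  The law of rotated Mittag-Leffler sums for Euler products, `Pool.Agent.V11288.LZ.Eul.final'`.
-/

set_option autoImplicit false

namespace Pool.Agent.Results.MP_86aa84_nt.CentralValuesBySatake

open Filter Topology Set NumberField IsDedekindDomain

variable {F : Type} [Field F] [NumberField F] {S : Set (HeightOneSpectrum (𝓞 F))} {N : ℕ}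

/-- `q_v`. -/
noncomputable def nrm (v : HeightOneSpectrum (𝓞 F)) : ℕ := Ideal.absNorm v.asIdeal

/-- `L` is the Euler product `∏_{v ∉ S} ∏_j (1 - c_{v,j} q_v^{-s})⁻¹` for `Re s > 1`, meromorphic at the points of the
real interval `[1/2, 1]` and holomorphic at `1/2`. -/
structure IsLFunction (c : {v : HeightOneSpectrum (𝓞 F) // v ∉ S} → Fin N → ℂ) (L : ℂ → ℂ) : Prop where
  mero : ∀ x ∈ Icc (1 / 2 : ℝ) 1, MeromorphicAt L (x : ℂ)
  holo : AnalyticAt ℂ L (1 / 2)
  prod : ∀ s : ℂ, 1 < s.re → L s =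
    ∏' v : {v : HeightOneSpectrum (𝓞 F) // v ∉ S}, ∏ j, (1 - c v j * (nrm v.1 : ℂ) ^ (-s))⁻¹

/-- The term of `V(X)` at `(v, k)`: `p_v(k) q_v^{-k/2} / k · cos(γt) / Γ(1 + t)`, `t = k log q_v / log X`, where
`p_v(k)` is (the real part of) the power sum. -/
noncomputable def term (c : {v : HeightOneSpectrum (𝓞 F) // v ∉ S} → Fin N → ℂ) (γ X : ℝ)
    (v : {v : HeightOneSpectrum (𝓞 F) // v ∉ S}) (k : ℕ) : ℝ :=
  (∑ j, c v j ^ k).re / (k * (nrm v.1 : ℝ) ^ ((k : ℝ) / 2)) *
    (Real.cos (γ * (k * Real.log (nrm v.1) / Real.log X)) /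
      Real.Gamma (1 + k * Real.log (nrm v.1) / Real.log X))

/-- `V(X)`, the sum over `v ∉ S` and `k ≥ 1` (here `k = x.2 + 1`). -/
noncomputable def V (c : {v : HeightOneSpectrum (𝓞 F) // v ∉ S} → Fin N → ℂ) (γ X : ℝ) : ℝ :=
  ∑' x : {v : HeightOneSpectrum (𝓞 F) // v ∉ S} × ℕ, term c γ X x.1 (x.2 + 1)

/-- `V(X)` is bounded from below for large `X`. -/
def BoundedBelow (c : {v : HeightOneSpectrum (𝓞 F) // v ∉ S} → Fin N → ℂ) (γ : ℝ) : Prop :=
  ∃ C : ℝ, ∀ᶠ X : ℝ in atTop, -C ≤ V c γ X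

open Pool.Agent.V11288.LZ

set_option linter.unusedSectionVars false

theorem term_eq {c : {v : HeightOneSpectrum (𝓞 F) // v ∉ S} → Fin N → ℂ}
    (hreal : ∀ v k, (∑ j, c v j ^ k).im = 0) (γ X : ℝ) (v : {v : HeightOneSpectrum (𝓞 F) // v ∉ S})
    (k : ℕ) : (jterm (S := {v | v ∉ S}) c (1 / 2) γ X v k).re = term c γ X v k := by
  unfold jterm term wt nrm
  have hq : (0 : ℝ) ≤ (Ideal.absNorm v.1.asIdeal : ℝ) := Nat.cast_nonneg _
  have h1 : (∑ j, c v j ^ k) = (((∑ j, c v j ^ k).re : ℝ) : ℂ) := by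
    apply Complex.ext
    · simp only [Complex.ofReal_re]
    · rw [hreal v k, Complex.ofReal_im]
  have h2 : ((((Ideal.absNorm v.1.asIdeal : ℝ) ^ (1 / 2 : ℝ) : ℝ)) : ℂ) ^ k =
      (((Ideal.absNorm v.1.asIdeal : ℝ) ^ ((k : ℝ) / 2) : ℝ) : ℂ) := by
    rw [← Complex.ofReal_pow, ← Real.rpow_natCast, ← Real.rpow_mul hq]
    congr 2
    ring
  have h3 : ((∑ j, c v j ^ k) / ((k : ℂ) * ((((Ideal.absNorm v.1.asIdeal : ℝ) ^ (1 / 2 : ℝ) : ℝ)) : ℂ) ^ k)) =
      (((∑ j, c v j ^ k).re / (k * (Ideal.absNorm v.1.asIdeal : ℝ) ^ ((k : ℝ) / 2)) : ℝ) : ℂ) := by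
    rw [h2]
    conv_lhs => rw [h1]
    push_cast
    rfl
  rw [h3, Complex.re_ofReal_mul, Complex.div_ofReal_re, Complex.exp_ofReal_mul_I_re]

/-- **Central values in terms of Satake parameters.** -/
theorem result (c : {v : HeightOneSpectrum (𝓞 F) // v ∉ S} → Fin N → ℂ) (hc : ∀ v j, ‖c v j‖ = 1)
    (hreal : ∀ v k, (∑ j, c v j ^ k).im = 0) (L : ℂ → ℂ) (hL : IsLFunction c L) (γ : ℝ)
    (hγ : Real.pi / 2 < γ) :
    (∀ X : ℝ, 1 < X → Summable fun x : {v : HeightOneSpectrum (𝓞 F) // v ∉ S} × ℕ =>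
      |term c γ X x.1 (x.2 + 1)|) ∧
    (∃ (r : ℕ) (b : ℝ), meromorphicOrderAt L (1 / 2) = ((r : ℤ) : WithTop ℤ) ∧
      (fun X : ℝ => V c γ X - (-(r * Real.log (Real.log X)) + b)) =O[atTop]
        (fun X : ℝ => 1 / Real.log X)) ∧
    (L (1 / 2) ≠ 0 ↔ BoundedBelow c γ) ∧
    (L (1 / 2) = 0 ↔ ∃ C : ℝ, ∀ᶠ X : ℝ in atTop, V c γ X ≤ -Real.log (Real.log X) + C) ∧
    ∀ P A : Prop, (P ↔ (A ∧ L (1 / 2) ≠ 0)) ↔ (P ↔ (A ∧ BoundedBelow c γ)) := by
  have hn : ∀ (v : {v | v ∉ S}) (x : Fin N), ‖c v x‖ ≤ (Ideal.absNorm v.1.asIdeal : ℝ) ^ (0 : ℝ) :=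
    fun v x => by rw [hc, Real.rpow_zero]
  have hm : ∀ x ∈ Icc (1 / 2 : ℝ) (1 + 0), MeromorphicAt L (x : ℂ) := fun x hx =>
    hL.mero x (by simpa using hx)
  have hp : ∀ s : ℂ, (1 : ℝ) + 0 < s.re → L s = ∏' v : {v | v ∉ S}, ∏ j,
      (1 - c v j * ((Ideal.absNorm v.1.asIdeal : ℕ) : ℂ) ^ (-s))⁻¹ := fun s hs =>
    hL.prod s (by linarith)
  have hs : ∀ X : ℝ, 1 < X → Summable fun x : {v : HeightOneSpectrum (𝓞 F) // v ∉ S} × ℕ =>
      ‖jterm (S := {v | v ∉ S}) c (1 / 2) γ X x.1 (x.2 + 1)‖ := fun X hX =>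
    jsummable hn (1 / 2) hm hp hγ hX
  have hV : ∀ X : ℝ, 1 < X → (jW (S := {v | v ∉ S}) c (1 / 2) γ X).re = V c γ X := by
    intro X hX
    exact (Complex.re_tsum (hs X hX).of_norm).trans
      (tsum_congr fun x => term_eq hreal γ X x.1 (x.2 + 1))
  have hhalf : ((1 / 2 : ℝ) : ℂ) = 1 / 2 := by push_cast; rfl
  obtain ⟨-, ⟨m, r₀, h1, h2, h3⟩, -, -⟩ := (jeul hn).final' (L := L) (1 / 2) hm
    (fun s hs => by rw [jprod, hp s hs]) hγ
  rw [hhalf] at h1 h2
  simp only [jW_eq] at h3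
  have hlogtop : Tendsto (fun X : ℝ => Real.log (Real.log X)) atTop atTop :=
    Real.tendsto_log_atTop.comp Real.tendsto_log_atTop
  -- the value at `1/2`
  have hcont : Tendsto L (𝓝[≠] (1 / 2 : ℂ)) (𝓝 (L (1 / 2))) :=
    hL.holo.continuousAt.tendsto.mono_left nhdsWithin_le_nhds
  have hm0 : 0 ≤ m := by
    have h4 := hL.holo.meromorphicOrderAt_nonneg
    rw [h1] at h4
    exact_mod_cast h4
  obtain ⟨r, rfl⟩ := Int.eq_ofNat_of_zero_le hm0
  have hval : L (1 / 2) ≠ 0 ↔ r = 0 := by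
    constructor
    · intro h
      by_contra hr
      have h5 : Tendsto (fun s : ℂ => (s - 1 / 2) ^ r) (𝓝[≠] (1 / 2 : ℂ)) (𝓝 0) := by
        have h6 : Continuous fun s : ℂ => (s - 1 / 2) ^ r := by fun_prop
        have h7 := (h6.tendsto (1 / 2 : ℂ)).mono_left (nhdsWithin_le_nhds (s := {(1 / 2 : ℂ)}ᶜ))
        simpa [hr] using h7
      have h6 := h2.mul h5
      rw [mul_zero] at h6
      have h7 : Tendsto L (𝓝[≠] (1 / 2 : ℂ)) (𝓝 0) := by
        refine h6.congr' ?_
        filter_upwards [self_mem_nhdsWithin] with s hs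
        have hs' : s - 1 / 2 ≠ 0 := sub_ne_zero.2 hs
        rw [zpow_natCast, div_mul_cancel₀ _ (pow_ne_zero _ hs')]
      exact h (tendsto_nhds_unique hcont h7)
    · rintro rfl
      have h5 : L (1 / 2) = Complex.exp r₀ := by
        refine tendsto_nhds_unique hcont ?_
        simpa using h2
      rw [h5]
      exact Complex.exp_ne_zero _
  -- the law for the real part
  set b : ℝ := (r * Pool.Agent.W187.UR.Lam γ + r₀).re with hb
  have hlaw : (fun X : ℝ => V c γ X - (-(r * Real.log (Real.log X)) + b)) =O[atTop]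
      (fun X : ℝ => 1 / Real.log X) := by
    refine Asymptotics.IsBigO.trans ?_ h3
    refine Asymptotics.IsBigO.of_bound 1 ?_
    filter_upwards [eventually_gt_atTop 1] with X hX
    rw [one_mul, ← hV X hX]
    have h5 : (jW (S := {v | v ∉ S}) c (1 / 2) γ X).re - (-(r * Real.log (Real.log X)) + b) =
        (jW (S := {v | v ∉ S}) c (1 / 2) γ X + ((r : ℤ) : ℂ) *
          ((Real.log (Real.log X) : ℂ) - Pool.Agent.W187.UR.Lam γ) - r₀).re := by
      rw [hb]
      simp only [Complex.sub_re, Complex.add_re, Complex.mul_re, Complex.ofReal_re,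
        Int.cast_natCast, Complex.natCast_re, Complex.natCast_im]
      ring
    rw [h5, Real.norm_eq_abs]
    exact Complex.abs_re_le_norm _
  have hlim : Tendsto (fun X : ℝ => V c γ X - (-(r * Real.log (Real.log X)) + b)) atTop (𝓝 0) :=
    hlaw.trans_tendsto (tendsto_const_nhds.div_atTop Real.tendsto_log_atTop)
  have hclose : ∀ᶠ X : ℝ in atTop, |V c γ X - (-(r * Real.log (Real.log X)) + b)| ≤ 1 := by
    have := hlim.abs.eventually (eventually_le_nhds (b := (1 : ℝ)) (by simp))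
    exact this
  have hB : r = 0 ↔ BoundedBelow c γ := by
    constructor
    · intro hr0
      refine ⟨1 - b, ?_⟩
      filter_upwards [hclose] with X hX
      rw [hr0] at hX
      have := (abs_le.1 hX).1
      push_cast at this
      linarith
    · rintro ⟨C, hC⟩
      by_contra hr
      have hr1 : (1 : ℝ) ≤ r := by exact_mod_cast Nat.one_le_iff_ne_zero.2 hr
      obtain ⟨X, h4, h5, h6, h7⟩ := (hclose.and (hC.and ((hlogtop.eventually_gt_atTop (C + b + 1)).and
        (hlogtop.eventually_ge_atTop 0)))).exists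
      have h8 := (abs_le.1 h4).2
      nlinarith
  have hZ : L (1 / 2) = 0 ↔ ∃ C : ℝ, ∀ᶠ X : ℝ in atTop, V c γ X ≤ -Real.log (Real.log X) + C := by
    constructor
    · intro h
      have hr : r ≠ 0 := fun h5 => (hval.2 h5) h
      have hr1 : (1 : ℝ) ≤ r := by exact_mod_cast Nat.one_le_iff_ne_zero.2 hr
      refine ⟨b + 1, ?_⟩
      filter_upwards [hclose, hlogtop.eventually_ge_atTop 0] with X h4 h5
      have h6 := (abs_le.1 h4).2
      nlinarith
    · rintro ⟨C, hC⟩
      by_contra h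
      obtain ⟨C', hC'⟩ := hB.1 (hval.1 h)
      obtain ⟨X, h4, h5, h6⟩ := (hC.and (hC'.and (hlogtop.eventually_gt_atTop (C + C')))).exists
      linarith
  have hB' : L (1 / 2) ≠ 0 ↔ BoundedBelow c γ := hval.trans hB
  refine ⟨fun X hX => ?_, ⟨r, b, ?_, hlaw⟩, hB', hZ, fun P A => by rw [hB']⟩
  · refine Summable.of_nonneg_of_le (fun _ => abs_nonneg _) (fun x => ?_) (hs X hX)
    rw [← term_eq hreal]
    exact Complex.abs_re_le_norm _
  · exact h1

end Pool.Agent.Results.MP_86aa84_nt.CentralValuesBySatake
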